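import Pool.Agent.Run7.h373.CK.Stm
import Pool.Agent.W289.CG.Crt

/-!
# Project CK (helper373), piece GOOD: the congruence conditions can be satisfied (helper600)

Adaptation of `exists_good` of `Pool/Agent/W289/CG/Core2.lean`.
-/

set_option autoImplicit false

namespace Run7.h600.CK

open Polynomial NumberField nonZeroDivisors Pool.Agent.W289.CG Pool.Agent.Run7.h373.CK

theorem zmod_iff {q : ℕ} (x : ℤ) : (x : ZMod q) = 0 ↔ (q : ℤ) ∣ x :=
  ZMod.intCast_zmod_eq_zero_iff_dvd x q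

theorem not_dvd_of_lt {q : ℕ} {Z : ℤ} (hZ : Z ≠ 0) (h : Z.natAbs < q) : ¬ (q : ℤ) ∣ Z := by
  intro h1
  have h2 := Int.natAbs_dvd_natAbs.2 h1
  simp only [Int.natAbs_natCast] at h2
  exact absurd (Nat.le_of_dvd (Int.natAbs_pos.2 hZ) h2) (by omega)

theorem bad_ne {n M : ℕ} (D : Dt n M) : D.bad ≠ 0 :=
  Finset.prod_ne_zero_iff.2 fun i _ => D.hder i

theorem ts_congr {n M : ℕ} {D : Dt n M} {m q : ℕ} {s t x s' t' : ℤ} (h : Ts D m q s t x)
    (hs : (q : ℤ) ∣ s' - s) (ht : (q : ℤ) ∣ t' - t) : Ts D m q s' t' x := by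
  have h1 : ((s' : ℤ) : ZMod q) = s := by
    have := (zmod_iff (q := q) _).2 hs
    push_cast at this
    exact sub_eq_zero.1 this
  have h2 : ((t' : ℤ) : ZMod q) = t := by
    have := (zmod_iff (q := q) _).2 ht
    push_cast at this
    exact sub_eq_zero.1 this
  refine ⟨h.prime, h.hc, ?_, ?_, h.hd⟩
  · have := h.hF
    rw [← zmod_iff] at this ⊢
    push_cast at this ⊢
    rw [h1, h2]; exact this
  · have := h.hL
    rw [← zmod_iff] at this ⊢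
    push_cast at this ⊢
    rw [h1, h2]; exact this

theorem pt_congr {n M : ℕ} {D : Dt n M} {m : ℕ} (τ : ℕ × (Fin (M + 1) → ℕ) × ℕ) (q : ℕ)
    (s t s' t' : ℤ) (hs : (q : ℤ) ∣ s' - s) (ht : (q : ℤ) ∣ t' - t) (h : Pt D m τ q s t) :
    Pt D m τ q s' t' := by
  obtain ⟨x, hx, h2⟩ := h
  exact ⟨x, ts_congr hx hs ht, h2⟩

theorem t_GOOD : S_TST → S_GOOD := by
  intro hTST n M D m N hn hm
  classical
  set Z : ℤ := D.c * |D.bad| with hZ
  have hZ0 : 0 < Z := mul_pos D.hc (abs_pos.2 (bad_ne D))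
  obtain ⟨q₀, hq₀N, hq₀⟩ := Nat.exists_infinite_primes (N + Z.natAbs + m + 1)
  have : NeZero (4 * m) := ⟨by omega⟩
  obtain ⟨q₁, hq₁N, hq₁, hq₁m⟩ := Nat.forall_exists_prime_gt_and_eq_mod (q := 4 * m) (a := -1)
    (isUnit_one.neg) (q₀ + Z.natAbs + m + 4)
  have hd : ∀ q : ℕ, Z.natAbs < q → ¬ (q : ℤ) ∣ Z := fun q hq => not_dvd_of_lt hZ0.ne' hq
  have hc : ∀ q : ℕ, Z.natAbs < q → ¬ (q : ℤ) ∣ D.c := fun q hq h =>
    hd q hq (Dvd.dvd.mul_right h _)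
  have hbad : ∀ q : ℕ, Z.natAbs < q → ¬ (q : ℤ) ∣ D.bad := fun q hq h =>
    hd q hq (Dvd.dvd.mul_left ((dvd_abs _ _).2 h) _)
  -- first two moduli
  obtain ⟨s₁, t₁, a1, a2, a3, a4, a5⟩ := crt2 (M := Z) (M' := (q₀ : ℤ) ^ 2) (s := 1) (t := 1)
    (s' := 1) (t' := 1 + q₀) ((coprime_of_prime hq₀ (hd q₀ (by omega))).pow_right)
    isCoprime_one_left isCoprime_one_left
  have hq01 : ¬ (q₁ : ℤ) ∣ Z * (q₀ : ℤ) ^ 2 := by
    have hp : Prime (q₁ : ℤ) := Nat.prime_iff_prime_int.1 hq₁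
    intro h
    rcases hp.dvd_or_dvd h with h | h
    · exact hd q₁ (by omega) h
    · have h1 := hp.dvd_of_dvd_pow h
      have h2 : q₁ ∣ q₀ := by exact_mod_cast h1
      have := Nat.le_of_dvd hq₀.pos h2
      omega
  obtain ⟨s₂, t₂, b1, b2, b3, b4, b5⟩ := crt2 (M := Z * (q₀ : ℤ) ^ 2) (M' := (q₁ : ℤ)) (s := s₁)
    (t := t₁) (s' := 1) (t' := 0) (coprime_of_prime hq₁ hq01) a5 isCoprime_one_left
  -- the tests
  set T : List (ℕ × (Fin (M + 1) → ℕ) × ℕ) :=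
    ((m.primeFactors ×ˢ (Fintype.piFinset (fun _ : Fin (M + 1) => Finset.range m) ×ˢ
      Finset.range m)).filter
      (fun τ => (∃ i, ¬ τ.1 ∣ τ.2.1 i) ∨ ¬ τ.1 ∣ τ.2.2)).toList with hT
  have hTm : ∀ τ, τ ∈ T ↔ (τ.1 ∈ m.primeFactors ∧ (∀ i, τ.2.1 i < m) ∧ τ.2.2 < m) ∧
      ((∃ i, ¬ τ.1 ∣ τ.2.1 i) ∨ ¬ τ.1 ∣ τ.2.2) := by
    intro τ
    rw [hT, Finset.mem_toList, Finset.mem_filter, Finset.mem_product, Finset.mem_product,
      Fintype.mem_piFinset]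
    simp only [Finset.mem_range]
  obtain ⟨W, s₀, t₀, hM, hMM, hcop, hs, ht, hall⟩ := crt_tests (Pt D m) pt_congr T
    (by
      intro τ hτ Q
      rw [hTm] at hτ
      exact hTST n M D m hn hm τ (Nat.prime_of_mem_primeFactors hτ.1.1)
        (Nat.dvd_of_mem_primeFactors hτ.1.1) hτ.2 Q)
    (Z * (q₀ : ℤ) ^ 2 * q₁) s₂ t₂
    (by
      have h1 : (0 : ℤ) < q₀ := by exact_mod_cast hq₀.pos
      have h2 : (0 : ℤ) < q₁ := by exact_mod_cast hq₁.pos
      positivity) b5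
  refine ⟨q₀, q₁, W, s₀, t₀, hM, hcop, fun s t hs' ht' => ?_⟩
  -- congruences of `s` and `t`
  have e1 : Z * (q₀ : ℤ) ^ 2 * q₁ ∣ s - s₂ := by
    have := (hMM.trans hs').add hs
    simpa using this
  have e2 : Z * (q₀ : ℤ) ^ 2 * q₁ ∣ t - t₂ := by
    have := (hMM.trans ht').add ht
    simpa using this
  have f1 : Z * (q₀ : ℤ) ^ 2 ∣ s - s₁ := by
    have := ((Dvd.intro _ rfl).trans e1).add b1
    simpa using this
  have f2 : Z * (q₀ : ℤ) ^ 2 ∣ t - t₁ := by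
    have := ((Dvd.intro _ rfl).trans e2).add b2
    simpa using this
  have g1 : Z ∣ s - 1 := by
    have := ((Dvd.intro _ rfl).trans f1).add a1
    simpa using this
  have g2 : Z ∣ t - 1 := by
    have := ((Dvd.intro _ rfl).trans f2).add a2
    simpa using this
  have g3 : (q₀ : ℤ) ^ 2 ∣ s - 1 := by
    have := ((Dvd.intro_left _ rfl).trans f1).add a3
    simpa using this
  have g4 : (q₀ : ℤ) ^ 2 ∣ t - (1 + q₀) := by
    have := ((Dvd.intro_left _ rfl).trans f2).add a4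
    simpa using this
  have g5 : (q₁ : ℤ) ∣ s - 1 := by
    have := ((Dvd.intro_left _ rfl).trans e1).add b3
    simpa using this
  have g6 : (q₁ : ℤ) ∣ t := by
    have := ((Dvd.intro_left _ rfl).trans e2).add b4
    simpa using this
  have hZc : D.c ∣ Z := Dvd.intro _ rfl
  have hZb : D.bad ∣ Z := (dvd_abs _ _).2 dvd_rfl |>.mul_left _
  refine ⟨hq₀, by omega, hc _ (by omega), ?_, (Dvd.intro_left _ (by ring)).trans g3, ?_, hq₁, ?_,
    by omega, by omega, hc _ (by omega), hbad _ (by omega), g5, g6, hZc.trans g1, hZc.trans g2,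
    hZb.trans g1, hZb.trans g2, ?_⟩
  · intro h
    have := Nat.le_of_dvd (by omega) h
    omega
  · have := g4.sub g3
    have h : t - s - q₀ = t - (1 + q₀) - (s - 1) := by ring
    rw [h]; exact this
  · have h1 : ((q₁ + 1 : ℕ) : ZMod (4 * m)) = 0 := by
      push_cast
      rw [hq₁m]
      ring
    exact (ZMod.natCast_eq_zero_iff _ _).1 h1
  · intro ℓ hℓ hℓm h h₀ hlt hlt₀ hex
    have hle : ℓ ≤ m := Nat.le_of_dvd (by omega) hℓm
    obtain ⟨q, hq, hqM, hP⟩ := hall (ℓ, h, h₀) ((hTm _).2 ⟨⟨Nat.mem_primeFactors.2 ⟨hℓ, hℓm,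
      by omega⟩, fun p => (hlt p).trans_le hle, hlt₀.trans_le hle⟩, hex⟩)
    exact ⟨q, hq, pt_congr _ _ _ _ _ _ (hqM.trans hs') (hqM.trans ht') hP⟩

end Run7.h600.CK
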