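import Pool.Agent.Run7.h373.CK.Stm

/-!
# Project CK (helper373), piece IND: independence of the elements (helper600)

Adaptation of `indep_of_tests` of `Pool/Agent/W289/CG/Ind.lean`.
-/

set_option autoImplicit false

namespace Run7.h600.CK

open Polynomial NumberField nonZeroDivisors Pool.Agent.W289.CG Pool.Agent.Run7.h373.CK

theorem aeval_int {R : Type} [CommRing R] (P : ℤ[X]) (x : ℤ) :
    aeval (x : R) P = ((P.eval x : ℤ) : R) := by
  have h := eval_intCast_map (Int.castRingHom R) P x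
  rw [aeval_def, eval₂_eq_eval_map]
  simp

theorem zpow_sum' {F ι : Type} [Field F] (x : F) (hx : x ≠ 0) (S : Finset ι) (e : ι → ℤ) :
    ∏ i ∈ S, x ^ e i = x ^ ∑ i ∈ S, e i := by
  classical
  induction S using Finset.induction_on with
  | empty => simp
  | insert i S hi ih => rw [Finset.prod_insert hi, Finset.sum_insert hi, zpow_add₀ hx, ih]

/-- the exponents of `Q(θ)`, `θ - pt 0`, `θ - pt 1`, ... -/
def expo {M : ℕ} (d : ℕ) (e : Fin (M + 1) → ℤ) : Fin (M + 2) → ℤ :=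
  Fin.cons (e 0) (Fin.cons (- (d * e 0) - ∑ i : Fin M, e i.succ) fun i : Fin M => e i.succ)

/-- the polynomials -/
noncomputable def pol {n M : ℕ} (D : Dt n M) : Fin (M + 2) → ℤ[X] :=
  Fin.cons D.Q fun i => X - C (D.pt i)

theorem prod_g {n M : ℕ} (D : Dt n M) {K : Type} [Field K] (θ : K) (h0 : θ - (D.pt 0 : K) ≠ 0)
    (g : Fin (M + 1) → Kˣ)
    (hg0 : (g 0 : K) = aeval θ D.Q / (θ - (D.pt 0 : K)) ^ D.Q.natDegree)
    (hg : ∀ i : Fin M, (g i.succ : K) = (θ - (D.pt i.succ : K)) / (θ - (D.pt 0 : K)))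
    (e : Fin (M + 1) → ℤ) :
    ∏ i, (aeval θ (pol D i)) ^ expo D.Q.natDegree e i = ((∏ i, g i ^ e i : Kˣ) : K) := by
  rw [Units.coe_prod, Fin.prod_univ_succ, Fin.prod_univ_succ, Fin.prod_univ_succ]
  simp only [Units.val_zpow_eq_zpow_val, hg0, hg, pol, expo, Fin.cons_zero, Fin.cons_succ]
  have ha : ∀ i, aeval θ (X - C (D.pt i) : ℤ[X]) = θ - (D.pt i : K) := by
    intro i; simp
  simp only [ha, div_zpow, Finset.prod_div_distrib]
  rw [zpow_sum' _ h0, zpow_sub₀ h0, zpow_neg, zpow_mul, zpow_natCast]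
  field_simp

theorem t_IND : S_EMB → S_RED → S_IND := by
  intro hE hR n M D m s t L K _ _ θ hK hn hL hF hpt hQ g hg0 hg ℓ hℓ hT e y hy i₀
  by_contra hi₀
  obtain ⟨E, hEdef⟩ : ∃ E, E = expo D.Q.natDegree e := ⟨_, rfl⟩
  have hℓ0 : (ℓ : ℤ) ≠ 0 := by exact_mod_cast hℓ.ne_zero
  have hℓpos : (0 : ℤ) < ℓ := by exact_mod_cast hℓ.pos
  obtain ⟨e', he'⟩ : ∃ e' : Fin (M + 2) → ℕ, e' = fun i => (E i % ℓ).toNat := ⟨_, rfl⟩
  have hmod : ∀ i, ((e' i : ℕ) : ℤ) = E i % ℓ := fun i => by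
    rw [he']
    exact Int.toNat_of_nonneg (Int.emod_nonneg _ hℓ0)
  have hlt : ∀ i, e' i < ℓ := fun i => by
    have h1 := hmod i
    have h2 := Int.emod_lt_of_pos (E i) hℓpos
    omega
  have hdvd : ∀ i, ℓ ∣ e' i → (ℓ : ℤ) ∣ E i := by
    intro i h
    have h1 := hmod i
    have h2 : (ℓ : ℤ) ∣ E i % ℓ := by
      rw [← h1]; exact_mod_cast h
    have h4 := (Int.dvd_self_sub_emod (x := E i) (m := (ℓ : ℤ))).add h2
    simpa using h4
  have hex : (∃ i : Fin (M + 1), ¬ ℓ ∣ e' i.succ) ∨ ¬ ℓ ∣ e' 0 := by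
    by_contra hcon
    push Not at hcon
    apply hi₀
    refine Fin.cases ?_ (fun j => ?_) i₀
    · have := hdvd 0 hcon.2
      rw [hEdef] at this
      simpa [expo] using this
    · have := hdvd j.succ.succ (hcon.1 j.succ)
      rw [hEdef] at this
      simpa [expo] using this
  obtain ⟨q, hq, x, hx, hxp, hxQ, hxy⟩ := hT (fun i => e' i.succ) (e' 0) (fun i => hlt _) (hlt _) hex
  have : Fact q.Prime := ⟨hq⟩
  obtain ⟨φ, z, hφ, hz⟩ := hE n M D m s t L K θ q x hK hn hL hF hx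
  have hpe := prod_g D θ (hpt 0) g hg0 hg e
  rw [← hEdef] at hpe
  have hnz : ∀ i, aeval ((x : ℤ) : ZMod q) (pol D i) ≠ 0 := by
    intro i
    rw [aeval_int]
    intro h
    rw [ZMod.intCast_zmod_eq_zero_iff_dvd] at h
    revert h
    refine Fin.cases ?_ (fun j => ?_) i
    · simpa [pol] using hxQ
    · simpa [pol] using hxp j
  obtain ⟨y', hy'⟩ := hR K q ℓ (M + 2) θ (pol D) φ z x hℓ hφ hz hnz E e' (y : K)
    (fun i => by
      rw [hmod]
      exact Int.dvd_self_sub_emod)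
    (by
      rcases hy with h | h
      · left
        rw [hpe, h]
        simp
      · right
        rw [hpe, h]
        simp)
  have h5 : ∏ i, (aeval ((x : ℤ) : ZMod q) (pol D i)) ^ e' i =
      (∏ i, ((x : ZMod q) - (D.pt i : ZMod q)) ^ e' i.succ) *
        ((D.Q.eval x : ℤ) : ZMod q) ^ e' 0 := by
    rw [Fin.prod_univ_succ, mul_comm]
    congr 1
    · refine Finset.prod_congr rfl fun i _ => ?_
      simp [pol]
    · rw [← aeval_int]
      simp [pol]
  have h6 := hxy y'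
  simp only [h5] at hy'
  rcases hy' with h | h
  · exact h6.1 h
  · exact h6.2 h

end Run7.h600.CK
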